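import Pool.Agent.Lib_MP_7ba156_hw.Pairs

/-!
# Windows of length `L ≤ log M` which contain a prime
-/

set_option autoImplicit false

namespace Pool.MP_7ba156.HW

open Finset

theorem pi_low {M : ℕ} (hM : 16 ≤ M) :
    (1 / 2 : ℝ) * M / Real.log M ≤ (((Icc 1 M).filter Nat.Prime).card : ℝ) := by
  have hM' : (16 : ℝ) ≤ M := by exact_mod_cast hM
  have hlog : 0 < Real.log M := Real.log_pos (by linarith)
  have h1 := Chebyshev.pi_ge M
  have h2 : ((Nat.primeCounting M : ℕ) : ℝ) = (((Icc 1 M).filter Nat.Prime).card : ℝ) := by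
    congr 1
    unfold Nat.primeCounting Nat.primeCounting'
    rw [Nat.count_eq_card_filter_range]
    congr 1
    ext p
    simp only [mem_filter, mem_range, mem_Icc]
    constructor
    · rintro ⟨h1, h2⟩
      exact ⟨⟨h2.one_lt.le, by omega⟩, h2⟩
    · rintro ⟨h1, h2⟩
      exact ⟨by omega, h2⟩
  rw [← h2]
  refine le_trans ?_ h1
  apply div_le_div_of_nonneg_right _ hlog.le
  have h3 : Real.log ((M : ℝ) + 1) ≤ 4 * Real.log 2 + (M + 1) / 16 - 1 := by
    have h4 : Real.log ((M : ℝ) + 1) = Real.log 16 + Real.log ((M + 1) / 16) := by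
      rw [← Real.log_mul (by norm_num) (by positivity)]
      congr 1
      ring
    have h5 : Real.log 16 = 4 * Real.log 2 := by
      rw [show (16 : ℝ) = 2 ^ (4 : ℕ) by norm_num, Real.log_pow]
      norm_num
    have h6 := Real.log_le_sub_one_of_pos (show (0 : ℝ) < (M + 1) / 16 by positivity)
    rw [h4, h5]
    linarith
  have h7 := Real.log_two_gt_d9
  have h8 := Real.log_two_lt_d9
  nlinarith

/-- `[n, n + L)` contains a prime -/
def Cov (L n : ℕ) : Prop := ∃ p : ℕ, p.Prime ∧ n ≤ p ∧ p < n + L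

/-- **The number of `n ≤ M` with a prime in `[n, n + L)`, `L ≤ log M`.** -/
theorem cov_low : ∃ c : ℝ, 0 < c ∧ c ≤ 1 ∧ ∃ M₀ : ℕ, ∀ M ≥ M₀, ∀ L : ℕ, 1 ≤ L → (L : ℝ) ≤ Real.log M →
    ∀ T : Finset ℕ, (∀ n ∈ Icc 1 M, Cov L n → n ∈ T) → c * L * M / Real.log M ≤ (T.card : ℝ) := by
  classical
  obtain ⟨C1, hC1, x1, hx1, hpairs⟩ := pairs_upper
  obtain ⟨C2, hC2, havg⟩ := avg_prod
  obtain ⟨η, hη⟩ : ∃ η : ℝ, η = min 1 (1 / (4 * (C1 * C2))) := ⟨_, rfl⟩
  have hη0 : 0 < η := by rw [hη]; positivity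
  have hη1 : η ≤ 1 := by rw [hη]; exact min_le_left _ _
  have hη2 : η * (C1 * C2) ≤ 1 / 4 := by
    have h1 : η ≤ 1 / (4 * (C1 * C2)) := by rw [hη]; exact min_le_right _ _
    have h2 : 0 < C1 * C2 := by positivity
    calc η * (C1 * C2) ≤ 1 / (4 * (C1 * C2)) * (C1 * C2) := mul_le_mul_of_nonneg_right h1 h2.le
      _ = 1 / 4 := by field_simp
  -- large `M`
  have hev : ∀ᶠ M : ℕ in Filter.atTop, 1 ≤ η * Real.log M ∧ 2 ^ 24 ≤ M ∧ x1 ≤ M := by
    refine Filter.Eventually.and ?_ ((Filter.eventually_ge_atTop _).and (Filter.eventually_ge_atTop _))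
    have h1 : Filter.Tendsto (fun M : ℕ => η * Real.log M) Filter.atTop Filter.atTop :=
      (Real.tendsto_log_atTop.comp tendsto_natCast_atTop_atTop).const_mul_atTop hη0
    exact h1.eventually_ge_atTop 1
  obtain ⟨M₀, hM₀⟩ := Filter.eventually_atTop.1 hev
  refine ⟨η / 16, by positivity, by linarith, M₀, ?_⟩
  intro M hM L hL hLM T hT
  obtain ⟨hηM, hM24, hMx⟩ := hM₀ M hM
  have hM24' : (2 : ℝ) ^ 24 ≤ M := by exact_mod_cast hM24
  have hM0 : (0 : ℝ) < M := by linarith [show (0 : ℝ) < 2 ^ 24 by norm_num]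
  have hlog : 0 < Real.log M := Real.log_pos (by linarith [show (1 : ℝ) < 2 ^ 24 by norm_num])
  have hlog1 : 1 ≤ Real.log M := by
    calc (1 : ℝ) ≤ η * Real.log M := hηM
      _ ≤ 1 * Real.log M := mul_le_mul_of_nonneg_right hη1 hlog.le
      _ = Real.log M := one_mul _
  -- the length `L'`
  obtain ⟨L', hL'⟩ : ∃ L' : ℕ, L' = min L ⌊η * Real.log M⌋₊ := ⟨_, rfl⟩
  have hfl : 1 ≤ ⌊η * Real.log M⌋₊ := Nat.le_floor (by exact_mod_cast hηM)
  have hL'1 : 1 ≤ L' := by rw [hL']; exact le_min hL hfl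
  have hL'L : L' ≤ L := by rw [hL']; exact min_le_left _ _
  have hL'η : (L' : ℝ) ≤ η * Real.log M := by
    have h1 : L' ≤ ⌊η * Real.log M⌋₊ := by rw [hL']; exact min_le_right _ _
    exact (Nat.le_floor_iff (by positivity)).1 h1
  have hL'low : η / 2 * L ≤ L' := by
    have hL0 : (0 : ℝ) ≤ L := Nat.cast_nonneg L
    rcases le_total L ⌊η * Real.log M⌋₊ with h1 | h1
    · have h2 : L' = L := by rw [hL']; exact min_eq_left h1
      rw [h2]
      nlinarith
    · have h2 : L' = ⌊η * Real.log M⌋₊ := by rw [hL']; exact min_eq_right h1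
      have h3 := Nat.lt_floor_add_one (η * Real.log M)
      have h4 : (1 : ℝ) ≤ (⌊η * Real.log M⌋₊ : ℝ) := by exact_mod_cast hfl
      rw [h2]
      have h5 : η / 2 * L ≤ η / 2 * Real.log M := mul_le_mul_of_nonneg_left hLM (by positivity)
      linarith
  -- the good primes
  set G := (Icc 1 M).filter fun q => q.Prime ∧ L' ≤ q ∧ ∀ h ∈ Icc 1 L', ¬ (q - h).Prime with hG
  have hGmem : ∀ q ∈ G, q ≤ M ∧ q.Prime ∧ L' ≤ q ∧ ∀ h ∈ Icc 1 L', ¬ (q - h).Prime := by
    intro q hq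
    rw [hG, mem_filter, mem_Icc] at hq
    exact ⟨hq.1.2, hq.2⟩
  have hcover : (Icc 1 M).filter Nat.Prime ⊆ G ∪ (Icc 1 L' ∪
      (Icc 1 L').biUnion fun h => ((Icc 1 M).filter fun q => q.Prime ∧ (q + h).Prime).image fun q => q + h) := by
    intro q hq
    rw [mem_filter, mem_Icc] at hq
    obtain ⟨⟨hq1, hqM⟩, hqp⟩ := hq
    rw [mem_union, mem_union]
    by_cases hqL : q ≤ L'
    · exact Or.inr (Or.inl (mem_Icc.2 ⟨hq1, hqL⟩))
    · by_cases hall : ∀ h ∈ Icc 1 L', ¬ (q - h).Prime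
      · left
        rw [hG, mem_filter, mem_Icc]
        exact ⟨⟨hq1, hqM⟩, hqp, by omega, hall⟩
      · right; right
        push Not at hall
        obtain ⟨h, hh, hp⟩ := hall
        rw [mem_biUnion]
        refine ⟨h, hh, ?_⟩
        rw [mem_image]
        have h2 := hp.two_le
        refine ⟨q - h, ?_, by omega⟩
        rw [mem_filter, mem_Icc]
        refine ⟨⟨by omega, by omega⟩, hp, ?_⟩
        rw [show q - h + h = q by omega]
        exact hqp
  have hcount : (((Icc 1 M).filter Nat.Prime).card : ℝ) ≤ G.card + (L' +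
      ∑ h ∈ Icc 1 L', (((Icc 1 M).filter fun q => q.Prime ∧ (q + h).Prime).card : ℝ)) := by
    have h1 := (card_le_card hcover).trans (card_union_le _ _)
    have h2 := card_union_le (Icc 1 L') ((Icc 1 L').biUnion fun h =>
      ((Icc 1 M).filter fun q => q.Prime ∧ (q + h).Prime).image fun q => q + h)
    have h3 : ((Icc 1 L').biUnion fun h =>
        ((Icc 1 M).filter fun q => q.Prime ∧ (q + h).Prime).image fun q => q + h).card ≤
        ∑ h ∈ Icc 1 L', ((Icc 1 M).filter fun q => q.Prime ∧ (q + h).Prime).card :=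
      card_biUnion_le.trans (Finset.sum_le_sum fun h _ => card_image_le)
    rw [Nat.card_Icc, Nat.add_sub_cancel] at h2
    have h4 : ((Icc 1 M).filter Nat.Prime).card ≤ G.card + (L' +
        ∑ h ∈ Icc 1 L', ((Icc 1 M).filter fun q => q.Prime ∧ (q + h).Prime).card) := by omega
    exact_mod_cast h4
  have hsum : ∑ h ∈ Icc 1 L', (((Icc 1 M).filter fun q => q.Prime ∧ (q + h).Prime).card : ℝ) ≤
      1 / 4 * M / Real.log M := by
    calc ∑ h ∈ Icc 1 L', (((Icc 1 M).filter fun q => q.Prime ∧ (q + h).Prime).card : ℝ)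
        ≤ ∑ h ∈ Icc 1 L', C1 * M / Real.log M ^ 2 * ∏ p ∈ h.primeFactors, (1 + 2 / (p : ℝ)) :=
          Finset.sum_le_sum fun h hh => hpairs M hMx h (mem_Icc.1 hh).1
      _ = C1 * M / Real.log M ^ 2 * ∑ h ∈ Icc 1 L', ∏ p ∈ h.primeFactors, (1 + 2 / (p : ℝ)) := by
          rw [Finset.mul_sum]
      _ ≤ C1 * M / Real.log M ^ 2 * (C2 * L') :=
          mul_le_mul_of_nonneg_left (havg L') (by positivity)
      _ ≤ C1 * M / Real.log M ^ 2 * (C2 * (η * Real.log M)) := by
          apply mul_le_mul_of_nonneg_left _ (by positivity)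
          exact mul_le_mul_of_nonneg_left hL'η hC2.le
      _ = (η * (C1 * C2)) * (M / Real.log M) := by
          field_simp
      _ ≤ 1 / 4 * (M / Real.log M) := mul_le_mul_of_nonneg_right hη2 (by positivity)
      _ = 1 / 4 * M / Real.log M := by ring
  have hpi := pi_low (M := M) (by omega)
  have hL'small : (L' : ℝ) ≤ 1 / 8 * M / Real.log M := by
    have h1 := log_sq_le hM24'
    have h2 : (8 : ℝ) ≤ (M : ℝ) ^ (1 / 2 : ℝ) := by
      calc (8 : ℝ) ≤ ((2 : ℝ) ^ 24) ^ (1 / 2 : ℝ) := by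
            rw [← Real.rpow_natCast 2, ← Real.rpow_mul (by norm_num)]
            norm_num
        _ ≤ _ := Real.rpow_le_rpow (by norm_num) hM24' (by norm_num)
    have h3 : (M : ℝ) ^ (1 / 2 : ℝ) * (M : ℝ) ^ (1 / 2 : ℝ) = M := by
      rw [← Real.rpow_add hM0]
      norm_num
    rw [le_div_iff₀ hlog]
    have h4 : (L' : ℝ) ≤ Real.log M := by nlinarith
    have h5 : (L' : ℝ) * Real.log M ≤ Real.log M ^ 2 := by nlinarith
    nlinarith
  have hGlow : 1 / 8 * M / Real.log M ≤ (G.card : ℝ) := by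
    have h1 : 1 / 2 * (M : ℝ) / Real.log M = 1 / 8 * M / Real.log M + (1 / 8 * M / Real.log M +
      1 / 4 * M / Real.log M) := by ring
    linarith
  -- disjoint intervals
  have hdisj : (G : Set ℕ).PairwiseDisjoint fun q => Ioc (q - L') q := by
    have key : ∀ q ∈ G, ∀ r ∈ G, q < r → Disjoint (Ioc (q - L') q) (Ioc (r - L') r) := by
      intro q hq r hr hqr
      obtain ⟨_, hqp, hqL, _⟩ := hGmem q hq
      obtain ⟨_, hrp, hrL, hrh⟩ := hGmem r hr
      rw [disjoint_left]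
      intro n hn hn'
      rw [mem_Ioc] at hn hn'
      refine hrh (r - q) (mem_Icc.2 ⟨by omega, by omega⟩) ?_
      rw [show r - (r - q) = q by omega]
      exact hqp
    intro q hq r hr hqr
    rcases lt_or_gt_of_ne hqr with h1 | h1
    · exact key q hq r hr h1
    · exact (key r hr q hq h1).symm
  have hsub : (G.biUnion fun q => Ioc (q - L') q) ⊆ T := by
    intro n hn
    rw [mem_biUnion] at hn
    obtain ⟨q, hq, hn⟩ := hn
    rw [mem_Ioc] at hn
    obtain ⟨hqM, hqp, hqL, _⟩ := hGmem q hq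
    exact hT n (mem_Icc.2 ⟨by omega, by omega⟩) ⟨q, hqp, hn.2, by omega⟩
  have hTc : (G.card : ℝ) * L' ≤ T.card := by
    have h1 := card_le_card hsub
    rw [card_biUnion fun q hq r hr hqr => hdisj hq hr hqr] at h1
    have h2 : ∑ q ∈ G, (Ioc (q - L') q).card = G.card * L' := by
      rw [Finset.sum_congr rfl fun q hq => by
        rw [Nat.card_Ioc, show q - (q - L') = L' by have := (hGmem q hq).2.2.1; omega],
        Finset.sum_const, smul_eq_mul]
    rw [h2] at h1
    exact_mod_cast h1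
  refine le_trans ?_ hTc
  calc η / 16 * L * M / Real.log M = (1 / 8 * M / Real.log M) * (η / 2 * L) := by ring
    _ ≤ (G.card : ℝ) * L' := mul_le_mul hGlow hL'low (by positivity) (Nat.cast_nonneg _)

end Pool.MP_7ba156.HW
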