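import Mathlib

/-!
# Translates by subset sums: the squaring step
-/

set_option autoImplicit false

namespace Pool.MP_7ba156.HW

open Finset

/-- one step: among the `R` blocks of length `Y` of `[a, a + R Y)` and their translates -/
theorem step {R Y : ℕ} (hR : 2 ≤ R) (hY : 1 ≤ Y) (a : ℕ) (V : Finset ℕ) (hV : V ⊆ Ico a (a + R * Y)) :
    ∃ a' d : ℕ, a ≤ a' ∧ a' + d + Y ≤ a + R * Y ∧
      ((R : ℝ) - 1) * (R * Y) * (((Ico a' (a' + Y)).filter fun n => n ∈ V ∧ n + d ∈ V).card : ℝ) ≤
        (V.card : ℝ) ^ 2 := by
  classical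
  have hR0 : (0 : ℝ) < R := by exact_mod_cast (by omega : 0 < R)
  -- a light block
  obtain ⟨i, hi, hlight⟩ : ∃ i ∈ range R, R * (V ∩ Ico (a + i * Y) (a + i * Y + Y)).card ≤ V.card := by
    by_contra hcon
    push Not at hcon
    have h1 : ∑ i ∈ range R, (V ∩ Ico (a + i * Y) (a + i * Y + Y)).card ≤ V.card := by
      rw [← card_biUnion]
      · apply card_le_card
        intro n hn
        rw [mem_biUnion] at hn
        obtain ⟨_, _, hn⟩ := hn
        exact (mem_inter.1 hn).1
      · have key : ∀ i j : ℕ, i < j → Disjoint (V ∩ Ico (a + i * Y) (a + i * Y + Y))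
            (V ∩ Ico (a + j * Y) (a + j * Y + Y)) := by
          intro i j hij
          rw [disjoint_left]
          intro n hn hn'
          have h1 := mem_Ico.1 (mem_inter.1 hn).2
          have h2 := mem_Ico.1 (mem_inter.1 hn').2
          have h3 : (i + 1) * Y ≤ j * Y := Nat.mul_le_mul_right Y hij
          have h4 : (i + 1) * Y = i * Y + Y := by ring
          omega
        intro i _ j _ hij
        rcases lt_or_gt_of_ne hij with h | h
        · exact key i j h
        · exact (key j i h).symm
    have h2 : ∑ i ∈ range R, V.card < ∑ i ∈ range R, R * (V ∩ Ico (a + i * Y) (a + i * Y + Y)).card :=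
      Finset.sum_lt_sum_of_nonempty ⟨0, mem_range.2 (by omega)⟩ hcon
    rw [Finset.sum_const, card_range, smul_eq_mul, ← Finset.mul_sum] at h2
    have h3 : R * ∑ i ∈ range R, (V ∩ Ico (a + i * Y) (a + i * Y + Y)).card ≤ R * V.card :=
      Nat.mul_le_mul_left R h1
    omega
  rw [mem_range] at hi
  set s := a + i * Y with hs
  set U := (range Y).filter fun u => s + u ∈ V with hU
  have hUcard : U.card = (V ∩ Ico s (s + Y)).card := by
    have h1 : V ∩ Ico s (s + Y) = U.image fun u => s + u := by
      ext n
      rw [mem_inter, mem_Ico, mem_image]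
      constructor
      · rintro ⟨h1, h2, h3⟩
        refine ⟨n - s, ?_, by omega⟩
        rw [hU, mem_filter, mem_range]
        refine ⟨by omega, ?_⟩
        rw [show s + (n - s) = n by omega]
        exact h1
      · rintro ⟨u, hu, rfl⟩
        rw [hU, mem_filter, mem_range] at hu
        exact ⟨hu.2, by omega, by omega⟩
    rw [h1, card_image_of_injective _ (add_right_injective s)]
  -- the translates
  set N := (R - 1) * Y with hN
  have hN1 : 1 ≤ N := by
    rw [hN]
    exact Nat.mul_pos (by omega) hY
  obtain ⟨t, ht, hsmall⟩ : ∃ t ∈ range N, N * (U.filter fun u => a + t + u ∈ V).card ≤ U.card * V.card := by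
    by_contra hcon
    push Not at hcon
    have h1 : ∑ t ∈ range N, (U.filter fun u => a + t + u ∈ V).card ≤ U.card * V.card := by
      have h2 : ∀ t ∈ range N, (U.filter fun u => a + t + u ∈ V).card = ∑ u ∈ U, if a + t + u ∈ V then 1 else 0 :=
        fun t _ => by rw [Finset.card_filter]
      rw [Finset.sum_congr rfl h2, Finset.sum_comm, ← smul_eq_mul, ← Finset.sum_const]
      refine Finset.sum_le_sum fun u _ => ?_
      rw [← Finset.card_filter]
      have h3 : ((range N).filter fun t => a + t + u ∈ V).image (fun t => a + t + u) ⊆ V := by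
        intro n hn
        rw [mem_image] at hn
        obtain ⟨t, ht, rfl⟩ := hn
        exact (mem_filter.1 ht).2
      have h4 := card_le_card h3
      rwa [card_image_of_injective] at h4
      intro t t' htt
      simp only at htt
      omega
    have h2 : ∑ t ∈ range N, U.card * V.card < ∑ t ∈ range N, N * (U.filter fun u => a + t + u ∈ V).card :=
      Finset.sum_lt_sum_of_nonempty ⟨0, mem_range.2 hN1⟩ hcon
    rw [Finset.sum_const, card_range, smul_eq_mul, ← Finset.mul_sum] at h2
    have h3 : N * ∑ t ∈ range N, (U.filter fun u => a + t + u ∈ V).card ≤ N * (U.card * V.card) :=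
      Nat.mul_le_mul_left N h1
    omega
  rw [mem_range] at ht
  have hRY : R * Y = N + Y := by
    rw [hN]
    obtain ⟨R', rfl⟩ : ∃ R', R = R' + 1 := ⟨R - 1, by omega⟩
    rw [Nat.add_sub_cancel]
    ring
  have hiY : i * Y ≤ N := by
    rw [hN]
    exact Nat.mul_le_mul_right Y (by omega)
  -- the two starting points are `s` and `a + t`
  refine ⟨min s (a + t), max s (a + t) - min s (a + t), ?_, ?_, ?_⟩
  · rw [hs]
    exact le_min (by omega) (by omega)
  · have h1 : min s (a + t) + (max s (a + t) - min s (a + t)) = max s (a + t) := by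
      have := min_le_max (a := s) (b := a + t)
      omega
    rw [h1, hRY]
    have h2 : max s (a + t) ≤ a + N := max_le (by omega) (by omega)
    omega
  · have h1 : ((Ico (min s (a + t)) (min s (a + t) + Y)).filter fun n =>
        n ∈ V ∧ n + (max s (a + t) - min s (a + t)) ∈ V).card = (U.filter fun u => a + t + u ∈ V).card := by
      have h2 : ((Ico (min s (a + t)) (min s (a + t) + Y)).filter fun n =>
          n ∈ V ∧ n + (max s (a + t) - min s (a + t)) ∈ V) =
          (U.filter fun u => a + t + u ∈ V).image fun u => min s (a + t) + u := by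
        ext n
        rw [mem_filter, mem_Ico, mem_image]
        rcases le_total s (a + t) with hst | hst
        · rw [min_eq_left hst, max_eq_right hst]
          constructor
          · rintro ⟨⟨h1, h2⟩, h3, h4⟩
            refine ⟨n - s, ?_, by omega⟩
            rw [mem_filter, hU, mem_filter, mem_range]
            refine ⟨⟨by omega, ?_⟩, ?_⟩
            · rw [show s + (n - s) = n by omega]
              exact h3
            · rw [show a + t + (n - s) = n + (a + t - s) by omega]
              exact h4
          · rintro ⟨u, hu, rfl⟩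
            rw [mem_filter, hU, mem_filter, mem_range] at hu
            refine ⟨⟨by omega, by omega⟩, hu.1.2, ?_⟩
            rw [show s + u + (a + t - s) = a + t + u by omega]
            exact hu.2
        · rw [min_eq_right hst, max_eq_left hst]
          constructor
          · rintro ⟨⟨h1, h2⟩, h3, h4⟩
            refine ⟨n - (a + t), ?_, by omega⟩
            rw [mem_filter, hU, mem_filter, mem_range]
            refine ⟨⟨by omega, ?_⟩, ?_⟩
            · rw [show s + (n - (a + t)) = n + (s - (a + t)) by omega]
              exact h4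
            · rw [show a + t + (n - (a + t)) = n by omega]
              exact h3
          · rintro ⟨u, hu, rfl⟩
            rw [mem_filter, hU, mem_filter, mem_range] at hu
            refine ⟨⟨by omega, by omega⟩, hu.2, ?_⟩
            rw [show a + t + u + (s - (a + t)) = s + u by omega]
            exact hu.1.2
      rw [h2, card_image_of_injective _ (add_right_injective _)]
    rw [h1]
    have h2 : (N : ℝ) * ((U.filter fun u => a + t + u ∈ V).card : ℝ) ≤ U.card * V.card := by
      exact_mod_cast hsmall
    have h3 : (R : ℝ) * (U.card : ℝ) ≤ V.card := by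
      rw [hUcard]
      exact_mod_cast hlight
    have h4 : (N : ℝ) = ((R : ℝ) - 1) * Y := by
      rw [hN]
      push_cast [Nat.cast_sub (by omega : 1 ≤ R)]
      ring
    rw [h4] at h2
    have hV0 : (0 : ℝ) ≤ V.card := Nat.cast_nonneg _
    calc ((R : ℝ) - 1) * (R * Y) * ((U.filter fun u => a + t + u ∈ V).card : ℝ)
        = R * (((R : ℝ) - 1) * Y * ((U.filter fun u => a + t + u ∈ V).card : ℝ)) := by ring
      _ ≤ R * (U.card * V.card) := mul_le_mul_of_nonneg_left h2 hR0.le
      _ = (R * U.card) * V.card := by ring
      _ ≤ V.card * V.card := mul_le_mul_of_nonneg_right h3 hV0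
      _ = (V.card : ℝ) ^ 2 := by ring

/-- **The cube.** -/
theorem cube {R X : ℕ} (hR : 2 ≤ R) (hX : 1 ≤ X) (m : ℕ) : ∀ (a : ℕ) (V : Finset ℕ) (β : ℝ), 0 ≤ β →
    V ⊆ Ico a (a + R ^ m * X) → (V.card : ℝ) ≤ β * ((R - 1) / R) * (R ^ m * X) →
    ∃ (b : ℕ) (d : ℕ → ℕ), a ≤ b ∧ b + ∑ i ∈ range m, d i + X ≤ a + R ^ m * X ∧
      (((range X).filter fun u => ∀ I ⊆ range m, b + u + ∑ i ∈ I, d i ∈ V).card : ℝ) ≤
        β ^ (2 ^ m) * ((R - 1) / R) * X := by
  classical
  have hR0 : (0 : ℝ) < R := by exact_mod_cast (by omega : 0 < R)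
  have hR2 : (2 : ℝ) ≤ R := by exact_mod_cast hR
  have hR1 : (0 : ℝ) < (R : ℝ) - 1 := by linarith
  induction m with
  | zero =>
    intro a V β hβ hV hc
    refine ⟨a, fun _ => 0, le_rfl, by simp, ?_⟩
    have h1 : (((range X).filter fun u => ∀ I ⊆ range 0, a + u + ∑ i ∈ I, (fun _ => 0) i ∈ V)).card ≤ V.card := by
      have h2 : ((range X).filter fun u => ∀ I ⊆ range 0, a + u + ∑ i ∈ I, (fun _ => 0) i ∈ V).image
          (fun u => a + u) ⊆ V := by
        intro n hn
        rw [mem_image] at hn
        obtain ⟨u, hu, rfl⟩ := hn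
        have := (mem_filter.1 hu).2 ∅ (empty_subset _)
        simpa using this
      have h3 := card_le_card h2
      rwa [card_image_of_injective _ (add_right_injective a)] at h3
    refine (Nat.cast_le.2 h1).trans (hc.trans (le_of_eq ?_))
    simp
  | succ m ih =>
    intro a V β hβ hV hc
    have hpow : R ^ (m + 1) * X = R * (R ^ m * X) := by ring
    rw [hpow] at hV
    have hY : 1 ≤ R ^ m * X := Nat.mul_pos (Nat.pow_pos (by omega)) hX
    obtain ⟨a', d', ha', had, hcard⟩ := step hR hY a V hV
    set V' := (Ico a' (a' + R ^ m * X)).filter fun n => n ∈ V ∧ n + d' ∈ V with hV'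
    have hXr : (0 : ℝ) < (R : ℝ) ^ m * X := by
      have : (0 : ℝ) < X := by exact_mod_cast hX
      positivity
    have hV'c : (V'.card : ℝ) ≤ β ^ 2 * ((R - 1) / R) * (R ^ m * X) := by
      push_cast at hcard
      have h1 : (V.card : ℝ) ^ 2 ≤ (β * ((R - 1) / R) * (R ^ (m + 1) * X)) ^ 2 :=
        pow_le_pow_left₀ (Nat.cast_nonneg _) hc 2
      have h2 := hcard.trans h1
      have h3 : (β * (((R : ℝ) - 1) / R) * (R ^ (m + 1) * X)) ^ 2 =
          (((R : ℝ) - 1) * (R * (R ^ m * X))) * (β ^ 2 * ((R - 1) / R) * (R ^ m * X)) := by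
        field_simp
        ring
      rw [h3] at h2
      exact le_of_mul_le_mul_left h2 (by positivity)
    obtain ⟨b, d, hb, hbd, hcnt⟩ := ih a' V' (β ^ 2) (sq_nonneg β) (filter_subset _ _) hV'c
    refine ⟨b, Function.update d m d', ha'.trans hb, ?_, ?_⟩
    · rw [sum_range_succ, Function.update_self]
      have h1 : ∑ i ∈ range m, Function.update d m d' i = ∑ i ∈ range m, d i :=
        Finset.sum_congr rfl fun i hi => Function.update_of_ne (by rw [mem_range] at hi; omega) _ _
      rw [h1, hpow]
      omega
    · have hsub : ((range X).filter fun u => ∀ I ⊆ range (m + 1), b + u + ∑ i ∈ I, Function.update d m d' i ∈ V) ⊆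
          (range X).filter fun u => ∀ I ⊆ range m, b + u + ∑ i ∈ I, d i ∈ V' := by
        intro u hu
        rw [mem_filter] at hu ⊢
        refine ⟨hu.1, fun I hI => ?_⟩
        have hu1 := mem_range.1 hu.1
        have hmI : m ∉ I := fun h => by simpa using hI h
        have e1 : ∑ i ∈ I, Function.update d m d' i = ∑ i ∈ I, d i :=
          Finset.sum_congr rfl fun i hi => Function.update_of_ne (by rintro rfl; exact hmI hi) _ _
        have h1 := hu.2 I (hI.trans (range_subset_range.2 (Nat.le_succ m)))
        have h2 := hu.2 (insert m I) (by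
          intro i hi
          rw [mem_insert] at hi
          rcases hi with rfl | hi
          · exact mem_range.2 (Nat.lt_succ_self _)
          · exact mem_range.2 ((mem_range.1 (hI hi)).trans (Nat.lt_succ_self m)))
        rw [sum_insert hmI, Function.update_self, e1] at h2
        rw [e1] at h1
        have h3 : ∑ i ∈ I, d i ≤ ∑ i ∈ range m, d i := Finset.sum_le_sum_of_subset hI
        rw [hV', mem_filter, mem_Ico]
        refine ⟨⟨by omega, by omega⟩, h1, ?_⟩
        rw [show b + u + ∑ i ∈ I, d i + d' = b + u + (d' + ∑ i ∈ I, d i) by ring]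
        exact h2
      refine (Nat.cast_le.2 (card_le_card hsub)).trans (hcnt.trans (le_of_eq ?_))
      rw [← pow_mul, ← pow_succ']

end Pool.MP_7ba156.HW
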