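import Pool.Agent.Lib_MP_7ba156_hw.Cover
import Pool.Agent.Lib_MP_7ba156_hw.Cube

/-!
# The theorem
-/

set_option autoImplicit false

namespace Pool.MP_7ba156.HW

open Finset

theorem ev_small (B δ : ℝ) (hB : 1 ≤ B) (hδ : 0 < δ) :
    ∀ᶠ l : ℝ in Filter.atTop, 2 * Real.log (B * l ^ 2) ^ 2 ≤ δ * l ∧ Real.log 2 ≤ δ * l ∧ B ≤ l ∧ 1 ≤ l := by
  have h1 := (Real.isLittleO_pow_log_id_atTop (n := 2)).bound (show (0 : ℝ) < δ / 18 by positivity)
  have h2 : ∀ᶠ l : ℝ in Filter.atTop, Real.log 2 ≤ δ * l :=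
    (Filter.tendsto_id.const_mul_atTop hδ).eventually_ge_atTop _
  filter_upwards [h1, h2, Filter.eventually_ge_atTop B, Filter.eventually_ge_atTop 1] with l a1 a2 a3 a4
  refine ⟨?_, a2, a3, a4⟩
  have hl0 : 0 < l := by linarith
  have hB0 : 0 < B := by linarith
  have hlog : 0 ≤ Real.log l := Real.log_nonneg a4
  have e1 : Real.log (B * l ^ 2) = Real.log B + 2 * Real.log l := by
    rw [Real.log_mul hB0.ne' (by positivity), Real.log_pow]
    norm_num
  have e2 : Real.log B ≤ Real.log l := Real.log_le_log hB0 a3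
  have e3 : 0 ≤ Real.log B := Real.log_nonneg hB
  rw [Real.norm_eq_abs, Real.norm_eq_abs, id, abs_of_nonneg (by positivity), abs_of_pos hl0] at a1
  rw [e1]
  have e4 : (Real.log B + 2 * Real.log l) ^ 2 ≤ (3 * Real.log l) ^ 2 := pow_le_pow_left₀ (by positivity) (by linarith) 2
  nlinarith

/-- **Translates of a window by subset sums.** -/
theorem main : ∃ C : ℝ, 0 < C ∧ ∀ ε : ℝ, 0 < ε → ∃ x₀ : ℝ, ∀ x : ℝ, x₀ ≤ x → ∀ L : ℕ, 1 ≤ L →
    (L : ℝ) ≤ Real.log x → ∃ (m : ℕ) (d : ℕ → ℕ), (2 : ℝ) ^ m * L ≤ C * Real.log x ^ 2 ∧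
      (∑ i ∈ range m, (d i : ℝ)) ≤ x ^ (1 + ε) ∧
      ∀ n : ℕ, (n : ℝ) ≤ x → ∃ I ⊆ range m, ∃ p : ℕ, p.Prime ∧
        n + ∑ i ∈ I, d i ≤ p ∧ p < n + ∑ i ∈ I, d i + L := by
  classical
  obtain ⟨c, hc, hc1, M₀, hcov⟩ := cov_low
  refine ⟨32 / c, by positivity, fun ε hε => ?_⟩
  obtain ⟨δ, hδ⟩ : ∃ δ : ℝ, δ = min ε 1 / 2 := ⟨_, rfl⟩
  have hδ0 : 0 < δ := by rw [hδ]; positivity
  have hδε : 2 * δ ≤ ε := by rw [hδ]; have := min_le_left ε 1; linarith
  have hδ1 : 2 * δ ≤ 1 := by rw [hδ]; have := min_le_right ε 1; linarith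
  have hB : (1 : ℝ) ≤ 16 / c := by rw [le_div_iff₀ hc]; linarith
  obtain ⟨l₀, hl₀⟩ := Filter.eventually_atTop.1 (ev_small (16 / c) δ hB hδ0)
  refine ⟨max (Real.exp l₀) (max M₀ 1), ?_⟩
  intro x hx L hL hLx
  have hx1 : Real.exp l₀ ≤ x := (le_max_left _ _).trans hx
  have hx2 : (M₀ : ℝ) ≤ x := (le_max_left _ _).trans ((le_max_right _ _).trans hx)
  have hx3 : (1 : ℝ) ≤ x := (le_max_right _ _).trans ((le_max_right _ _).trans hx)
  have hx0 : 0 < x := by linarith
  obtain ⟨l, hl⟩ : ∃ l : ℝ, l = Real.log x := ⟨_, rfl⟩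
  rw [← hl] at hLx ⊢
  have hl0 : l₀ ≤ l := by
    rw [hl, Real.le_log_iff_exp_le hx0]
    exact hx1
  obtain ⟨s1, s2, s3, s4⟩ := hl₀ l hl0
  have hlpos : 0 < l := by linarith
  have hL1 : (1 : ℝ) ≤ L := by exact_mod_cast hL
  have hL0 : (0 : ℝ) < L := by linarith
  -- `X`
  obtain ⟨X, hX⟩ : ∃ X : ℕ, X = ⌊x⌋₊ + 1 := ⟨_, rfl⟩
  have hXx : x < X := by
    rw [hX]
    push_cast
    exact Nat.lt_floor_add_one x
  have hX2 : (X : ℝ) ≤ 2 * x := by
    rw [hX]
    push_cast
    have := Nat.floor_le hx0.le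
    linarith
  have hX1 : 1 ≤ X := by omega
  have hX0 : (0 : ℝ) < X := by linarith
  have hlX : l ≤ Real.log X := by
    rw [hl]
    exact Real.log_le_log hx0 hXx.le
  have hlX2 : Real.log X ≤ Real.log 2 + l := by
    rw [hl, ← Real.log_mul (by norm_num) hx0.ne']
    exact Real.log_le_log hX0 hX2
  have hlX3 : Real.log X ≤ 2 * l := by
    have h1 : Real.log 2 ≤ 1 := by
      have := Real.log_two_lt_d9
      linarith
    linarith
  -- the density
  obtain ⟨e, he⟩ : ∃ e : ℝ, e = c / 2 * L / l := ⟨_, rfl⟩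
  have he0 : 0 < e := by rw [he]; positivity
  have he1 : e ≤ 1 / 2 := by
    rw [he, div_le_iff₀ hlpos]
    nlinarith
  have he2 : c / 2 / l ≤ e := by
    rw [he]
    apply div_le_div_of_nonneg_right _ hlpos.le
    nlinarith
  have hinv : 1 / e ≤ 2 / c * l := by
    rw [div_le_iff₀ he0]
    have h1 : 2 / c * l * (c / 2 / l) = 1 := by field_simp
    calc (1 : ℝ) = 2 / c * l * (c / 2 / l) := h1.symm
      _ ≤ 2 / c * l * e := mul_le_mul_of_nonneg_left he2 (by positivity)
  -- `R`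
  obtain ⟨R, hR⟩ : ∃ R : ℕ, R = ⌈2 / e⌉₊ := ⟨_, rfl⟩
  have hRlow : 2 / e ≤ R := by
    rw [hR]
    exact Nat.le_ceil _
  have hR4 : (4 : ℝ) ≤ R := by
    refine le_trans ?_ hRlow
    rw [le_div_iff₀ he0]
    linarith
  have hR2 : 2 ≤ R := by
    have : (2 : ℝ) ≤ R := by linarith
    exact_mod_cast this
  have hRup : (R : ℝ) ≤ 16 / c * l ^ 2 := by
    have h1 := Nat.ceil_lt_add_one (show 0 ≤ 2 / e by positivity)
    rw [← hR] at h1
    have h2 : 2 / e ≤ 4 / c * l := by
      calc 2 / e = 2 * (1 / e) := by ring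
        _ ≤ 2 * (2 / c * l) := mul_le_mul_of_nonneg_left hinv (by norm_num)
        _ = 4 / c * l := by ring
    have h3 : 1 ≤ 1 / c * l := by
      have h4 : 1 ≤ 1 / c := by rw [le_div_iff₀ hc]; linarith
      nlinarith
    have h4 : l ≤ l ^ 2 := by nlinarith
    have h5 : 0 < 1 / c := by positivity
    have h6 : (16 : ℝ) / c * l ^ 2 = 16 * (1 / c * l ^ 2) := by ring
    have h7 : 1 / c * l ≤ 1 / c * l ^ 2 := mul_le_mul_of_nonneg_left h4 h5.le
    have h8 : 4 / c * l = 4 * (1 / c * l) := by ring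
    rw [h6]
    linarith
  have hR0 : (0 : ℝ) < R := by linarith
  -- the dimension
  have hA1 : 1 ≤ 2 * Real.log X / e := by
    rw [le_div_iff₀ he0]
    linarith
  obtain ⟨k, hk1, hk2⟩ := exists_nat_pow_near hA1 (show (1 : ℝ) < 2 by norm_num)
  obtain ⟨m, hm⟩ : ∃ m : ℕ, m = k + 1 := ⟨_, rfl⟩
  rw [← hm] at hk2
  have hm2 : (2 : ℝ) ^ m ≤ 8 * l / e := by
    rw [hm, pow_succ]
    have h1 : 2 * Real.log X / e ≤ 4 * l / e := by
      apply div_le_div_of_nonneg_right _ he0.le
      linarith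
    have h2 : 8 * l / e = 4 * l / e * 2 := by ring
    linarith
  have hm3 : (2 : ℝ) ^ m ≤ 16 / c * l ^ 2 := by
    calc (2 : ℝ) ^ m ≤ 8 * l / e := hm2
      _ = 8 * l * (1 / e) := by ring
      _ ≤ 8 * l * (2 / c * l) := mul_le_mul_of_nonneg_left hinv (by positivity)
      _ = 16 / c * l ^ 2 := by ring
  have hlogB0 : 0 ≤ Real.log (16 / c * l ^ 2) := by
    apply Real.log_nonneg
    nlinarith
  -- the length of the long interval
  obtain ⟨M, hM⟩ : ∃ M : ℕ, M = R ^ m * X := ⟨_, rfl⟩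
  have hM1 : (M : ℝ) = (R : ℝ) ^ m * X := by
    rw [hM]
    push_cast
    ring
  have hMX : X ≤ M := by
    rw [hM]
    exact Nat.le_mul_of_pos_left X (Nat.pow_pos (by omega))
  have hM0 : (0 : ℝ) < M := by
    rw [hM1]
    positivity
  have hlogM : Real.log M ≤ (1 + 2 * δ) * l := by
    rw [hM1, Real.log_mul (by positivity) hX0.ne', Real.log_pow]
    have h1 : (m : ℝ) * Real.log 2 ≤ Real.log (16 / c * l ^ 2) := by
      rw [← Real.log_pow]
      exact Real.log_le_log (by positivity) hm3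
    have h2 : (m : ℝ) ≤ 2 * Real.log (16 / c * l ^ 2) := by
      have h3 := Real.log_two_gt_d9
      have h4 : (m : ℝ) * (1 / 2) ≤ m * Real.log 2 :=
        mul_le_mul_of_nonneg_left (by linarith) (Nat.cast_nonneg m)
      linarith
    have h3 : Real.log R ≤ Real.log (16 / c * l ^ 2) := Real.log_le_log hR0 hRup
    have h4 : 0 ≤ Real.log R := Real.log_nonneg (by linarith)
    have h5 : (m : ℝ) * Real.log R ≤ 2 * Real.log (16 / c * l ^ 2) * Real.log (16 / c * l ^ 2) :=
      mul_le_mul h2 h3 h4 (by positivity)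
    have h6 : 2 * Real.log (16 / c * l ^ 2) * Real.log (16 / c * l ^ 2) =
      2 * Real.log (16 / c * l ^ 2) ^ 2 := by ring
    linarith
  have hlMl : l ≤ Real.log M := hlX.trans (Real.log_le_log hX0 (by exact_mod_cast hMX))
  have hlogM0 : 0 < Real.log M := by linarith
  have hlogM2 : Real.log M ≤ 2 * l := by
    refine hlogM.trans ?_
    nlinarith
  have hMx : (M : ℝ) ≤ x ^ (1 + ε) := by
    rw [Real.rpow_def_of_pos hx0, ← Real.log_le_iff_le_exp hM0, ← hl]
    refine hlogM.trans ?_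
    nlinarith
  have hMM : M₀ ≤ M := by
    have h1 : (M₀ : ℝ) ≤ M := hx2.trans (hXx.le.trans (by exact_mod_cast hMX))
    exact_mod_cast h1
  -- the bad set
  set T := (Icc 1 M).filter fun n => Cov L n with hT
  set V := (Icc 1 M).filter fun n => ¬ Cov L n with hV
  have hTlow := hcov M hMM L hL (hLx.trans hlMl) T fun n hn hn' => by
    rw [hT, mem_filter]
    exact ⟨hn, hn'⟩
  have hTV : (T.card : ℝ) + V.card = M := by
    have h1 := Finset.card_filter_add_card_filter_not (s := Icc 1 M) (fun n => Cov L n)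
    rw [Nat.card_Icc, Nat.add_sub_cancel] at h1
    exact_mod_cast h1
  have hTe : e * M ≤ T.card := by
    refine le_trans ?_ hTlow
    rw [le_div_iff₀ hlogM0]
    have h1 : e * M * Real.log M ≤ e * M * (2 * l) := mul_le_mul_of_nonneg_left hlogM2 (by positivity)
    have h2 : e * M * (2 * l) = c * L * M := by
      rw [he]
      field_simp
    linarith
  have hRe : 1 / (R : ℝ) ≤ e / 2 := by
    rw [div_le_iff₀ hR0]
    rw [div_le_iff₀ he0] at hRlow
    linarith
  have hVc : (V.card : ℝ) ≤ (1 - e / 2) * ((R - 1) / R) * (R ^ m * X) := by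
    rw [← hM1]
    have h1 : (V.card : ℝ) ≤ (1 - e) * M := by linarith
    refine h1.trans ?_
    apply mul_le_mul_of_nonneg_right _ hM0.le
    have h2 : ((R : ℝ) - 1) / R = 1 - 1 / R := by field_simp
    rw [h2]
    have h3 : 0 < 1 / (R : ℝ) := by positivity
    nlinarith
  have hVsub : V ⊆ Ico 1 (1 + R ^ m * X) := by
    intro n hn
    rw [hV, mem_filter, mem_Icc] at hn
    rw [mem_Ico, ← hM]
    omega
  obtain ⟨b, d, hb1, hbd, hcnt⟩ := cube hR2 hX1 m 1 V (1 - e / 2) (by linarith) hVsub hVc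
  rw [← hM] at hbd
  -- nothing is left
  have hzero : ((range X).filter fun u => ∀ I ⊆ range m, b + u + ∑ i ∈ I, d i ∈ V) = ∅ := by
    rw [← Finset.card_eq_zero]
    by_contra hne
    have h1 : (1 : ℝ) ≤ (((range X).filter fun u => ∀ I ⊆ range m, b + u + ∑ i ∈ I, d i ∈ V).card : ℝ) := by
      exact_mod_cast Nat.one_le_iff_ne_zero.2 hne
    have h2 : (1 - e / 2) ^ (2 ^ m) ≤ 1 / X := by
      calc (1 - e / 2) ^ (2 ^ m) ≤ (Real.exp (-(e / 2))) ^ (2 ^ m) := by
            apply pow_le_pow_left₀ (by linarith)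
            have := Real.add_one_le_exp (-(e / 2))
            linarith
        _ = Real.exp (-(e / 2 * 2 ^ m)) := by
            rw [← Real.exp_nat_mul]
            congr 1
            push_cast
            ring
        _ ≤ Real.exp (-Real.log X) := by
            apply Real.exp_le_exp.2
            rw [div_lt_iff₀ he0] at hk2
            linarith
        _ = 1 / X := by
            rw [Real.exp_neg, Real.exp_log hX0, one_div]
    have h3 : ((R : ℝ) - 1) / R < 1 := by
      rw [div_lt_one hR0]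
      linarith
    have h3' : 0 ≤ ((R : ℝ) - 1) / R := div_nonneg (by linarith) hR0.le
    have h4 : (1 - e / 2) ^ (2 ^ m) * (((R : ℝ) - 1) / R) * X ≤ 1 / X * (((R : ℝ) - 1) / R) * X := by
      apply mul_le_mul_of_nonneg_right _ hX0.le
      exact mul_le_mul_of_nonneg_right h2 h3'
    have h5 : 1 / (X : ℝ) * (((R : ℝ) - 1) / R) * X = ((R : ℝ) - 1) / R := by
      field_simp
    linarith
  refine ⟨m + 1, Function.update d m b, ?_, ?_, ?_⟩
  · calc (2 : ℝ) ^ (m + 1) * L = 2 * 2 ^ m * L := by ring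
      _ ≤ 2 * (8 * l / e) * L := by
          apply mul_le_mul_of_nonneg_right _ hL0.le
          linarith
      _ = 32 / c * l ^ 2 := by
          rw [he]
          field_simp
          ring
  · rw [sum_range_succ, Function.update_self]
    have h1 : ∑ i ∈ range m, (Function.update d m b i : ℝ) = ∑ i ∈ range m, (d i : ℝ) :=
      Finset.sum_congr rfl fun i hi => by
        rw [Function.update_of_ne (by rw [mem_range] at hi; omega)]
    rw [h1]
    refine le_trans ?_ hMx
    have h2 : ∑ i ∈ range m, d i + b ≤ M := by omega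
    exact_mod_cast h2
  · intro n hn
    have hnX : n < X := by
      have h1 : (n : ℝ) < X := lt_of_le_of_lt hn hXx
      exact_mod_cast h1
    have hnot : n ∉ (range X).filter fun u => ∀ I ⊆ range m, b + u + ∑ i ∈ I, d i ∈ V := by
      rw [hzero]
      exact notMem_empty n
    rw [mem_filter, not_and] at hnot
    have h1 := hnot (mem_range.2 hnX)
    push Not at h1
    obtain ⟨I, hI, hIV⟩ := h1
    have hmI : m ∉ I := fun h => by simpa using hI h
    have h3 : ∑ i ∈ I, d i ≤ ∑ i ∈ range m, d i := Finset.sum_le_sum_of_subset hI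
    have hCov : Cov L (b + n + ∑ i ∈ I, d i) := by
      by_contra hcon
      apply hIV
      rw [hV, mem_filter, mem_Icc]
      exact ⟨⟨by omega, by omega⟩, hcon⟩
    obtain ⟨p, hp, hp1, hp2⟩ := hCov
    have e1 : ∑ i ∈ I, Function.update d m b i = ∑ i ∈ I, d i :=
      Finset.sum_congr rfl fun i hi => Function.update_of_ne (by rintro rfl; exact hmI hi) _ _
    refine ⟨insert m I, ?_, p, hp, ?_, ?_⟩
    · intro i hi
      rw [mem_insert] at hi
      rcases hi with rfl | hi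
      · exact mem_range.2 (Nat.lt_succ_self _)
      · exact mem_range.2 ((mem_range.1 (hI hi)).trans (Nat.lt_succ_self m))
    · rw [sum_insert hmI, Function.update_self, e1]
      omega
    · rw [sum_insert hmI, Function.update_self, e1]
      omega

end Pool.MP_7ba156.HW
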