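import Pool.Agent.Lib_MP_a95293_rc.SvO
import Pool.Agent.Lib_MP_a95293_rc.SvU

/-!
# Prime pairs `q`, `q + h`: the upper bound, uniformly in `h`
-/

set_option autoImplicit false

namespace Pool.MP_7ba156.HW

open Finset Pool.Agent.OmAP Pool.MP_a95293_nt.RC

/-- the classes `0` and `-h` modulo `p` -/
noncomputable def oh (h p : ℕ) : Finset ℕ := (range p).filter fun t => p ∣ t * (t + h)

theorem mem_oh {h p t : ℕ} : t ∈ oh h p ↔ t < p ∧ p ∣ t * (t + h) := by
  unfold oh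
  rw [mem_filter, mem_range]

theorem oh_card {h p : ℕ} (hp : p.Prime) : (oh h p).card = (om h p).card := by
  classical
  by_cases hph : p ∣ h
  · rw [om_card_dvd hp hph]
    have h1 : oh h p = {0} := by
      ext t
      rw [mem_oh, mem_singleton]
      constructor
      · rintro ⟨h1, h2⟩
        rcases hp.dvd_mul.1 h2 with h3 | h3
        · exact Nat.eq_zero_of_dvd_of_lt h3 h1
        · exact Nat.eq_zero_of_dvd_of_lt ((Nat.dvd_add_left hph).1 h3) h1
      · rintro rfl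
        exact ⟨hp.pos, by simp⟩
    rw [h1, card_singleton]
  · rw [om_card_eq hp hph]
    have hm : 0 < h % p := Nat.pos_of_ne_zero fun h0 => hph (Nat.dvd_of_mod_eq_zero h0)
    have hm' : h % p < p := Nat.mod_lt _ hp.pos
    have h1 : oh h p = {0, p - h % p} := by
      ext t
      rw [mem_oh, mem_insert, mem_singleton]
      constructor
      · rintro ⟨h1, h2⟩
        rcases hp.dvd_mul.1 h2 with h3 | h3
        · exact Or.inl (Nat.eq_zero_of_dvd_of_lt h3 h1)
        · right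
          have h4 : p ∣ t + h % p := by
            have h5 : t + h = (t + h % p) + p * (h / p) := by
              have := Nat.mod_add_div h p
              omega
            rw [h5] at h3
            exact (Nat.dvd_add_left (dvd_mul_right p _)).1 h3
          obtain ⟨k, hk⟩ := h4
          have hk1 : 0 < k := by
            rcases Nat.eq_zero_or_pos k with h0 | h0
            · rw [h0, mul_zero] at hk
              omega
            · exact h0
          have hk2 : k < 2 := by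
            by_contra hcon
            have : p * 2 ≤ p * k := Nat.mul_le_mul_left p (not_lt.1 hcon)
            omega
          have hk3 : k = 1 := by omega
          rw [hk3, mul_one] at hk
          omega
      · rintro (rfl | rfl)
        · exact ⟨hp.pos, by simp⟩
        · refine ⟨by omega, dvd_mul_of_dvd_right ?_ _⟩
          have h5 : p - h % p + h = p * (h / p) + p := by
            have := Nat.mod_add_div h p
            omega
          rw [h5]
          exact (dvd_mul_right p _).add (dvd_refl p)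
    rw [h1]
    apply card_pair
    omega

theorem log_sq_le {x : ℝ} (hx : 2 ^ 24 ≤ x) : Real.log x ^ 2 ≤ x ^ (1 / 2 : ℝ) := by
  have hx0 : 0 < x := by linarith [show (0 : ℝ) < 2 ^ 24 by norm_num]
  have h1 : Real.log x ≤ x ^ (1 / 8 : ℝ) / (1 / 8) := Real.log_le_rpow_div hx0.le (by norm_num)
  have h0 : 0 ≤ Real.log x := Real.log_nonneg (by linarith [show (1 : ℝ) ≤ 2 ^ 24 by norm_num])
  have h2 : Real.log x ^ 2 ≤ (x ^ (1 / 8 : ℝ) / (1 / 8)) ^ 2 := pow_le_pow_left₀ h0 h1 2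
  have h3 : (x ^ (1 / 8 : ℝ) / (1 / 8)) ^ 2 = 64 * x ^ (1 / 4 : ℝ) := by
    rw [div_pow, ← Real.rpow_natCast (x ^ (1 / 8 : ℝ)), ← Real.rpow_mul hx0.le]
    norm_num
    ring
  have h4 : (64 : ℝ) ≤ x ^ (1 / 4 : ℝ) := by
    calc (64 : ℝ) = ((2 : ℝ) ^ 24) ^ (1 / 4 : ℝ) := by
          rw [← Real.rpow_natCast 2, ← Real.rpow_mul (by norm_num)]
          norm_num
      _ ≤ x ^ (1 / 4 : ℝ) := Real.rpow_le_rpow (by norm_num) hx (by norm_num)
  have h5 : x ^ (1 / 2 : ℝ) = x ^ (1 / 4 : ℝ) * x ^ (1 / 4 : ℝ) := by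
    rw [← Real.rpow_add hx0]
    norm_num
  rw [h3] at h2
  rw [h5]
  have h6 : 0 ≤ x ^ (1 / 4 : ℝ) := by positivity
  nlinarith

/-- the choice of `z` -/
theorem choose_z {K : ℕ} (hK : 2 ≤ K) {x : ℕ} (hx : 4 ^ K ≤ x) :
    ∃ z : ℕ, 2 ≤ z ∧ z ^ K ≤ x ∧ (z : ℝ) ≤ (x : ℝ) ^ (1 / 2 : ℝ) ∧
      Real.log x / (2 * K) ≤ Real.log z := by
  have hK0 : (0 : ℝ) < K := by exact_mod_cast (by omega : 0 < K)
  have hx1 : 1 ≤ x := (Nat.one_le_pow _ _ (by norm_num)).trans hx
  have hx0 : (0 : ℝ) < x := by exact_mod_cast hx1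
  have hx1' : (1 : ℝ) ≤ x := by exact_mod_cast hx1
  set y : ℝ := (x : ℝ) ^ (1 / (2 * K) : ℝ) with hy
  have hy2 : 2 ≤ y := by
    have h1 : ((4 : ℝ) ^ K) ≤ x := by exact_mod_cast hx
    calc (2 : ℝ) = ((4 : ℝ) ^ K) ^ (1 / (2 * K) : ℝ) := by
          rw [show (4 : ℝ) = 2 ^ (2 : ℕ) by norm_num, ← pow_mul, ← Real.rpow_natCast 2,
            ← Real.rpow_mul (by norm_num)]
          push_cast
          rw [mul_one_div_cancel (by positivity), Real.rpow_one]
      _ ≤ y := Real.rpow_le_rpow (by positivity) h1 (by positivity)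
  have hyy : (x : ℝ) ^ (1 / K : ℝ) = y * y := by
    rw [hy, ← Real.rpow_add hx0]
    congr 1
    field_simp
    norm_num
  set z := ⌊(x : ℝ) ^ (1 / K : ℝ)⌋₊ with hz
  have hzle : (z : ℝ) ≤ (x : ℝ) ^ (1 / K : ℝ) := Nat.floor_le (by positivity)
  have hzge : y ≤ z := by
    have h1 := Nat.lt_floor_add_one ((x : ℝ) ^ (1 / K : ℝ))
    rw [← hz] at h1
    rw [hyy] at h1
    nlinarith
  refine ⟨z, ?_, ?_, ?_, ?_⟩
  · exact_mod_cast hy2.trans hzge
  · have h1 : (z : ℝ) ^ K ≤ x := by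
      calc (z : ℝ) ^ K ≤ ((x : ℝ) ^ (1 / K : ℝ)) ^ K := pow_le_pow_left₀ (Nat.cast_nonneg _) hzle K
        _ = x := by
          rw [← Real.rpow_natCast, ← Real.rpow_mul hx0.le, one_div_mul_cancel hK0.ne', Real.rpow_one]
    exact_mod_cast h1
  · refine hzle.trans (Real.rpow_le_rpow_of_exponent_le hx1' ?_)
    exact one_div_le_one_div_of_le (by norm_num) (by exact_mod_cast hK)
  · calc Real.log x / (2 * K) = Real.log y := by
          rw [hy, Real.log_rpow hx0]
          ring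
      _ ≤ Real.log z := Real.log_le_log (by linarith) hzge

/-- **Prime pairs**: the number of primes `q ≤ x` with `q + h` prime. -/
theorem pairs_upper : ∃ C : ℝ, 0 < C ∧ ∃ x₀ : ℕ, 2 ≤ x₀ ∧ ∀ x ≥ x₀, ∀ h : ℕ, 1 ≤ h →
    (((Icc 1 x).filter fun q => q.Prime ∧ (q + h).Prime).card : ℝ) ≤
      C * x / Real.log x ^ 2 * ∏ p ∈ h.primeFactors, (1 + 2 / (p : ℝ)) := by
  classical
  obtain ⟨C0, hC0⟩ := sieve_count_up 2
  set K := max C0 2 with hK
  have hK2 : 2 ≤ K := le_max_right _ _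
  have hK0 : (0 : ℝ) < K := by exact_mod_cast (by omega : 0 < K)
  refine ⟨288 * K ^ 2 + 1, by positivity, max (4 ^ K) (2 ^ 24), ?_, ?_⟩
  · exact le_trans (by norm_num) (le_max_right _ _)
  intro x hx h hh
  have hx4 : 4 ^ K ≤ x := (le_max_left _ _).trans hx
  have hx24 : 2 ^ 24 ≤ x := (le_max_right _ _).trans hx
  obtain ⟨z, hz2, hzK, hzx, hzlog⟩ := choose_z hK2 hx4
  have hx0 : (0 : ℝ) < x := by
    have : 0 < x := lt_of_lt_of_le (by norm_num) hx24
    exact_mod_cast this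
  have hx1 : (1 : ℝ) < x := by
    have : 1 < x := lt_of_lt_of_le (by norm_num) hx24
    exact_mod_cast this
  have hlx : 0 < Real.log x := Real.log_pos hx1
  set Pr : ℝ := ∏ p ∈ h.primeFactors, (1 + 2 / (p : ℝ)) with hPr
  have hPr1 : 1 ≤ Pr := by
    rw [hPr]
    calc (1 : ℝ) = ∏ p ∈ h.primeFactors, (1 : ℝ) := by rw [prod_const_one]
      _ ≤ _ := Finset.prod_le_prod (fun _ _ => zero_le_one) fun p _ => by
        have : (0 : ℝ) ≤ 2 / (p : ℝ) := by positivity
        linarith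
  -- the sieve
  have hT : z ^ C0 ≤ x + 1 := by
    calc z ^ C0 ≤ z ^ K := Nat.pow_le_pow_right (by omega) (le_max_left _ _)
      _ ≤ x := hzK
      _ ≤ x + 1 := Nat.le_succ x
  have hPP : ∀ p ∈ PP 2 z, p ≤ z ∧ p.Prime := by
    intro p hp
    unfold PP at hp
    rw [mem_filter, mem_Ioc] at hp
    exact ⟨hp.1.2, hp.2⟩
  have hs := hC0 z (x + 1) hz2 hT (oh h) (fun p hp => ⟨by
    rw [oh_card (hPP p hp).2]
    exact om_card_le h (hPP p hp).2, by
    unfold oh
    exact filter_subset _ _⟩)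
  have hprod : ∏ p ∈ PP 2 z, (1 - ((oh h p).card : ℝ) / p) = ∏ p ∈ PP 2 z, (1 - ((om h p).card : ℝ) / p) :=
    Finset.prod_congr rfl fun p hp => by rw [oh_card (hPP p hp).2]
  rw [hprod] at hs
  have hsub : ((Icc 1 x).filter fun q => q.Prime ∧ (q + h).Prime) ⊆
      Icc 1 z ∪ (range (x + 1)).filter fun t => ∀ p ∈ PP 2 z, t % p ∉ oh h p := by
    intro q hq
    rw [mem_filter, mem_Icc] at hq
    obtain ⟨⟨hq1, hqx⟩, hqp, hhq⟩ := hq
    rw [mem_union]
    by_cases hqz : q ≤ z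
    · exact Or.inl (mem_Icc.2 ⟨hq1, hqz⟩)
    · right
      rw [mem_filter, mem_range]
      refine ⟨by omega, fun p hp hmem => ?_⟩
      obtain ⟨hpz, hpp⟩ := hPP p hp
      rw [mem_oh] at hmem
      have h1 : p ∣ q * (q + h) := by
        have h2 : q % p * (q % p + h) ≡ q * (q + h) [MOD p] := by
          apply Nat.ModEq.mul (Nat.mod_modEq q p)
          exact Nat.ModEq.add_right h (Nat.mod_modEq q p)
        exact (h2.dvd_iff (dvd_refl p)).1 hmem.2
      rcases hpp.dvd_mul.1 h1 with h3 | h3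
      · rw [Nat.prime_dvd_prime_iff_eq hpp hqp] at h3
        omega
      · rw [Nat.prime_dvd_prime_iff_eq hpp hhq] at h3
        omega
  have hcard : ((((Icc 1 x).filter fun q => q.Prime ∧ (q + h).Prime).card : ℕ) : ℝ) ≤
      z + 4 * (x + 1) * ∏ p ∈ PP 2 z, (1 - ((om h p).card : ℝ) / p) := by
    have h1 := (card_le_card hsub).trans (card_union_le _ _)
    rw [Nat.card_Icc, Nat.add_sub_cancel] at h1
    have h2 : ((((Icc 1 x).filter fun q => q.Prime ∧ (q + h).Prime).card : ℕ) : ℝ) ≤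
        z + (((range (x + 1)).filter fun t => ∀ p ∈ PP 2 z, t % p ∉ oh h p).card : ℝ) := by
      exact_mod_cast h1
    push_cast at hs
    linarith
  refine hcard.trans ?_
  have hpo := prod_om h z hh hz2
  rw [← hPr] at hpo
  have hlz : 0 < Real.log z := Real.log_pos (by exact_mod_cast (by omega : 1 < z))
  have h1 : 9 / Real.log z ^ 2 ≤ 36 * K ^ 2 / Real.log x ^ 2 := by
    rw [div_le_div_iff₀ (by positivity) (by positivity)]
    have h2 : Real.log x ≤ 2 * K * Real.log z := by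
      rw [div_le_iff₀ (by positivity)] at hzlog
      linarith
    have h3 : Real.log x ^ 2 ≤ (2 * K * Real.log z) ^ 2 := pow_le_pow_left₀ hlx.le h2 2
    nlinarith
  have h2 : (z : ℝ) ≤ x / Real.log x ^ 2 * Pr := by
    have h3 := log_sq_le (x := (x : ℝ)) (by exact_mod_cast hx24)
    have h4 : (x : ℝ) ^ (1 / 2 : ℝ) ≤ x / Real.log x ^ 2 := by
      rw [le_div_iff₀ (by positivity)]
      calc (x : ℝ) ^ (1 / 2 : ℝ) * Real.log x ^ 2 ≤ (x : ℝ) ^ (1 / 2 : ℝ) * (x : ℝ) ^ (1 / 2 : ℝ) :=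
            mul_le_mul_of_nonneg_left h3 (by positivity)
        _ = x := by
            rw [← Real.rpow_add hx0]
            norm_num
    refine (hzx.trans h4).trans ?_
    exact le_mul_of_one_le_right (by positivity) hPr1
  have h3 : 4 * ((x : ℝ) + 1) * ∏ p ∈ PP 2 z, (1 - ((om h p).card : ℝ) / p) ≤
      8 * x * (36 * K ^ 2 / Real.log x ^ 2 * Pr) := by
    have h4 : ∏ p ∈ PP 2 z, (1 - ((om h p).card : ℝ) / p) ≤ 36 * K ^ 2 / Real.log x ^ 2 * Pr :=
      hpo.trans (mul_le_mul_of_nonneg_right h1 (by linarith))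
    have h5 : 4 * ((x : ℝ) + 1) ≤ 8 * x := by linarith
    have h6 : 0 ≤ 36 * (K : ℝ) ^ 2 / Real.log x ^ 2 * Pr := by positivity
    exact (mul_le_mul_of_nonneg_left h4 (by positivity)).trans (mul_le_mul_of_nonneg_right h5 h6)
  have h4 : (288 * (K : ℝ) ^ 2 + 1) * x / Real.log x ^ 2 * Pr =
      x / Real.log x ^ 2 * Pr + 8 * x * (36 * K ^ 2 / Real.log x ^ 2 * Pr) := by ring
  rw [h4]
  exact add_le_add h2 h3

/-! ### The average over `h` -/

private theorem one_sum {H : ℕ} {S : Finset ℕ} (hS : ∀ p ∈ S, p.Prime) :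
    (((Icc 1 H).filter (fun h => S ⊆ h.primeFactors)).card : ℝ) ≤ (∏ p ∈ S, 1 / (p : ℝ)) * H := by
  classical
  have hD : 0 < ∏ p ∈ S, p := Finset.prod_pos fun p hp => (hS p hp).pos
  have h1 : (Icc 1 H).filter (fun h => S ⊆ h.primeFactors) ⊆
      (Ioc 0 H).filter fun h => (∏ p ∈ S, p) ∣ h := by
    intro h hh
    rw [mem_filter, mem_Icc] at hh
    have hdvd : ∏ p ∈ S, p ∣ h := by
      refine (Finset.prod_dvd_prod_of_subset _ _ _ hh.2).trans (Nat.prod_primeFactors_dvd h)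
    rw [mem_filter, mem_Ioc]
    exact ⟨by omega, hdvd⟩
  have h2 := card_le_card h1
  rw [Nat.Ioc_filter_dvd_card_eq_div] at h2
  have h3 : ((H / ∏ p ∈ S, p : ℕ) : ℝ) ≤ (H : ℝ) / ((∏ p ∈ S, p : ℕ) : ℝ) := Nat.cast_div_le
  have h4 : (H : ℝ) / ((∏ p ∈ S, p : ℕ) : ℝ) = (∏ p ∈ S, 1 / (p : ℝ)) * H := by
    push_cast
    rw [Finset.prod_div_distrib, Finset.prod_const_one]
    ring
  calc (((Icc 1 H).filter (fun h => S ⊆ h.primeFactors)).card : ℝ)
      ≤ ((H / ∏ p ∈ S, p : ℕ) : ℝ) := by exact_mod_cast h2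
    _ ≤ _ := h3
    _ = _ := h4

theorem avg_prod : ∃ C : ℝ, 0 < C ∧ ∀ H : ℕ,
    ∑ h ∈ Icc 1 H, ∏ p ∈ h.primeFactors, (1 + 2 / (p : ℝ)) ≤ C * H := by
  classical
  have hsum : Summable fun n : ℕ => 1 / (n : ℝ) ^ 2 := Real.summable_one_div_nat_pow.2 (by norm_num)
  refine ⟨Real.exp (2 * ∑' n : ℕ, 1 / (n : ℝ) ^ 2), Real.exp_pos _, fun H => ?_⟩
  set P := (Icc 1 H).filter Nat.Prime with hP
  have h1 : ∑ h ∈ Icc 1 H, ∏ p ∈ h.primeFactors, (1 + 2 / (p : ℝ)) =
      ∑ S ∈ P.powerset, (∏ p ∈ S, 2 / (p : ℝ)) *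
        (((Icc 1 H).filter (fun h => S ⊆ h.primeFactors)).card : ℝ) := by
    have e1 : ∀ h ∈ Icc 1 H, ∏ p ∈ h.primeFactors, (1 + 2 / (p : ℝ)) =
        ∑ S ∈ P.powerset, if S ⊆ h.primeFactors then (∏ p ∈ S, 2 / (p : ℝ)) else 0 := by
      intro h hh
      rw [mem_Icc] at hh
      rw [Finset.prod_one_add, ← Finset.sum_filter]
      have e2 : P.powerset.filter (fun S => S ⊆ h.primeFactors) = h.primeFactors.powerset := by
        ext S
        rw [mem_filter, mem_powerset, mem_powerset]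
        refine ⟨fun hs => hs.2, fun hs => ⟨fun p hp => ?_, hs⟩⟩
        have hp' := Nat.mem_primeFactors.1 (hs hp)
        rw [hP, mem_filter, mem_Icc]
        exact ⟨⟨hp'.1.one_lt.le, (Nat.le_of_dvd (by omega) hp'.2.1).trans hh.2⟩, hp'.1⟩
      rw [e2]
    rw [Finset.sum_congr rfl e1, Finset.sum_comm]
    refine Finset.sum_congr rfl fun S _ => ?_
    rw [← Finset.sum_filter, Finset.sum_const, nsmul_eq_mul, mul_comm]
  rw [h1]
  have h2 : ∑ S ∈ P.powerset, (∏ p ∈ S, 2 / (p : ℝ)) *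
      (((Icc 1 H).filter (fun h => S ⊆ h.primeFactors)).card : ℝ) ≤
      ∑ S ∈ P.powerset, (∏ p ∈ S, 2 / (p : ℝ) ^ 2) * (H : ℝ) := by
    refine Finset.sum_le_sum fun S hS => ?_
    have hSp : ∀ p ∈ S, p.Prime := fun p hp => (mem_filter.1 (mem_powerset.1 hS hp)).2
    refine (mul_le_mul_of_nonneg_left (one_sum hSp) (Finset.prod_nonneg fun p _ => by positivity)).trans
      (le_of_eq ?_)
    rw [← mul_assoc, ← Finset.prod_mul_distrib]
    congr 1
    refine Finset.prod_congr rfl fun p _ => ?_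
    rw [div_mul_div_comm, mul_one, sq]
  refine h2.trans ?_
  rw [← Finset.sum_mul, ← Finset.prod_one_add]
  have h3 : ∏ p ∈ P, (1 + 2 / (p : ℝ) ^ 2) ≤ Real.exp (2 * ∑' n : ℕ, 1 / (n : ℝ) ^ 2) := by
    calc ∏ p ∈ P, (1 + 2 / (p : ℝ) ^ 2) ≤ ∏ p ∈ P, Real.exp (2 / (p : ℝ) ^ 2) := by
          refine Finset.prod_le_prod (fun p _ => by positivity) fun p _ => ?_
          have := Real.add_one_le_exp (2 / (p : ℝ) ^ 2)
          linarith
      _ = Real.exp (2 * ∑ p ∈ P, 1 / (p : ℝ) ^ 2) := by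
          rw [← Real.exp_sum, Finset.mul_sum]
          congr 1
          refine Finset.sum_congr rfl fun p _ => ?_
          ring
      _ ≤ _ := by
          apply Real.exp_le_exp.2
          apply mul_le_mul_of_nonneg_left _ (by norm_num)
          exact hsum.sum_le_tsum _ fun n _ => by positivity
  exact mul_le_mul_of_nonneg_right h3 (Nat.cast_nonneg H)

end Pool.MP_7ba156.HW
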